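import Mathlib

/-!
# A space `X` such that `𝒮(X)` is a `σ`-space but not an `ℵ`-space

The space is the sequential fan with uncountably many spines.
-/

set_option autoImplicit false

open Set Topology Filter

universe u v

namespace Pool.Agent.Results.MP_81fb9f_gt.SequentialFan

/-- A convergent sequence of `X`: the set `{x_n : n ∈ ℕ} ∪ {a}` with `x_n → a`. -/
def IsConvergentSequence {X : Type u} [TopologicalSpace X] (C : Set X) : Prop :=
  ∃ (x : ℕ → X) (a : X), Tendsto x atTop (𝓝 a) ∧ C = range x ∪ {a}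

/-- `𝒮(X)`: the nonempty closed subsets of `X` that are unions of finitely many convergent
sequences. -/
def HyperS (X : Type u) [TopologicalSpace X] : Type u :=
  {S : Set X // S.Nonempty ∧ IsClosed S ∧
    ∃ 𝒞 : Set (Set X), 𝒞.Finite ∧ (∀ C ∈ 𝒞, IsConvergentSequence C) ∧ S = ⋃₀ 𝒞}

/-- `⟨P_1, …, P_r⟩`. -/
def bracket {X : Type u} [TopologicalSpace X] {r : ℕ} (P : Fin r → Set X) : Set (HyperS X) :=
  {S | S.1 ⊆ ⋃ i, P i ∧ ∀ j, (S.1 ∩ P j).Nonempty}

/-- The Vietoris topology on `𝒮(X)`. -/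
instance (X : Type u) [TopologicalSpace X] : TopologicalSpace (HyperS X) :=
  TopologicalSpace.generateFrom
    {W | ∃ (r : ℕ) (U : Fin r → Set X), (∀ i, IsOpen (U i)) ∧ W = bracket U}

/-- `P` is a network of `Y`. -/
def IsNetwork {Y : Type v} [TopologicalSpace Y] (P : Set (Set Y)) : Prop :=
  ∀ (y : Y) (U : Set Y), IsOpen U → y ∈ U → ∃ p ∈ P, y ∈ p ∧ p ⊆ U

/-- `P` is a `k`-network of `Y`. -/
def IsKNetwork {Y : Type v} [TopologicalSpace Y] (P : Set (Set Y)) : Prop :=
  ∀ K U : Set Y, IsCompact K → IsOpen U → K ⊆ U →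
    ∃ P' : Set (Set Y), P' ⊆ P ∧ P'.Finite ∧ K ⊆ ⋃₀ P' ∧ ⋃₀ P' ⊆ U

/-- `P` is a union of countably many locally finite families. -/
def IsSigmaLocallyFinite {Y : Type v} [TopologicalSpace Y] (P : Set (Set Y)) : Prop :=
  ∃ Q : ℕ → Set (Set Y), P = ⋃ n, Q n ∧ ∀ n, LocallyFinite (fun s : Q n => (s : Set Y))

/-- `Y` is a `σ`-space: a regular (Hausdorff) space with a `σ`-locally finite network. -/
def IsSigmaSpace (Y : Type v) [TopologicalSpace Y] : Prop :=
  T3Space Y ∧ ∃ P : Set (Set Y), IsSigmaLocallyFinite P ∧ IsNetwork P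

/-- `Y` is an `ℵ`-space: a regular (Hausdorff) space with a `σ`-locally finite `k`-network. -/
def IsAlephSpace (Y : Type v) [TopologicalSpace Y] : Prop :=
  T3Space Y ∧ ∃ P : Set (Set Y), IsSigmaLocallyFinite P ∧ IsKNetwork P

section general

variable {X : Type u} [TopologicalSpace X]

lemma isOpen_sub (W : Set X) (hW : IsOpen W) : IsOpen {S : HyperS X | S.1 ⊆ W} := by
  apply TopologicalSpace.isOpen_generateFrom_of_mem
  refine ⟨1, fun _ => W, fun _ => hW, ?_⟩
  ext S
  simp only [bracket, mem_ofPred_eq, iUnion_const]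
  constructor
  · intro h
    exact ⟨h, fun _ => by rw [inter_eq_left.2 h]; exact S.2.1⟩
  · exact fun h => h.1

lemma isOpen_meet (W : Set X) (hW : IsOpen W) : IsOpen {S : HyperS X | (S.1 ∩ W).Nonempty} := by
  apply TopologicalSpace.isOpen_generateFrom_of_mem
  refine ⟨2, ![univ, W], ?_, ?_⟩
  · intro i
    fin_cases i
    · exact isOpen_univ
    · exact hW
  · ext S
    simp only [bracket, mem_ofPred_eq]
    constructor
    · intro h
      refine ⟨fun x _ => mem_iUnion.2 ⟨0, trivial⟩, fun j => ?_⟩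
      fin_cases j
      · simpa using S.2.1
      · exact h
    · exact fun h => h.2 1

lemma isClosed_sub (W : Set X) (hW : IsClosed W) : IsClosed {S : HyperS X | S.1 ⊆ W} := by
  have h := isOpen_meet Wᶜ hW.isOpen_compl
  rw [← isOpen_compl_iff]
  convert h using 1
  ext S
  simp only [mem_compl_iff, mem_ofPred_eq, not_subset, Set.Nonempty, mem_inter_iff]

lemma isClosed_meet (W : Set X) (hW : IsClosed W) :
    IsClosed {S : HyperS X | (S.1 ∩ W).Nonempty} := by
  have h := isOpen_sub Wᶜ hW.isOpen_compl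
  rw [← isOpen_compl_iff]
  convert h using 1
  ext S
  simp only [mem_compl_iff, mem_ofPred_eq, not_nonempty_iff_eq_empty,
    subset_compl_iff_disjoint_right, disjoint_iff_inter_eq_empty]

lemma isCompact_val (S : HyperS X) : IsCompact S.1 := by
  obtain ⟨-, -, 𝒞, hfin, hC, hS⟩ := S.2
  rw [hS]
  refine hfin.isCompact_sUnion fun C hC' => ?_
  obtain ⟨x, a, hx, rfl⟩ := hC C hC'
  rw [union_singleton]
  exact hx.isCompact_insert_range

/-- Singletons as points of `𝒮(X)`. -/
def single [T1Space X] (x : X) : HyperS X :=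
  ⟨{x}, singleton_nonempty x, isClosed_singleton, {{x}}, finite_singleton _, by
    rintro C rfl
    exact ⟨fun _ => x, x, tendsto_const_nhds, by simp⟩, by simp⟩

lemma continuous_single [T1Space X] : Continuous (single : X → HyperS X) := by
  refine continuous_generateFrom_iff.2 ?_
  rintro W ⟨r, U, hU, rfl⟩
  have : single ⁻¹' bracket U = (⋃ i, U i) ∩ ⋂ i, U i := by
    ext x
    constructor
    · rintro ⟨h1, h2⟩
      exact ⟨singleton_subset_iff.1 h1, mem_iInter.2 fun i => singleton_inter_nonempty.1 (h2 i)⟩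
    · rintro ⟨h1, h2⟩
      exact ⟨singleton_subset_iff.2 h1, fun i => singleton_inter_nonempty.2 (mem_iInter.1 h2 i)⟩
  rw [this]
  exact (isOpen_iUnion hU).inter (isOpen_iInter_of_finite hU)

end general

/-- The sequential fan with spines indexed by `I`: the points are `∞` (`none`) and `(α, n)`. -/
def Fan (I : Type u) : Type u := Option (I × ℕ)

/-- All points `(α, n)` are isolated and `U ∋ ∞` is open iff `U` contains almost all points of each
spine. -/
instance (I : Type u) : TopologicalSpace (Fan I) where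
  IsOpen U := (none : Option (I × ℕ)) ∈ U → ∀ α : I, ∃ n : ℕ, ∀ m ≥ n,
    (some (α, m) : Option (I × ℕ)) ∈ U
  isOpen_univ := fun _ _ => ⟨0, fun _ _ => trivial⟩
  isOpen_inter := by
    intro s t hs ht hst α
    obtain ⟨n, hn⟩ := hs hst.1 α
    obtain ⟨m, hm⟩ := ht hst.2 α
    exact ⟨max n m, fun k hk => ⟨hn k (le_trans (le_max_left _ _) hk),
      hm k (le_trans (le_max_right _ _) hk)⟩⟩
  isOpen_sUnion := by
    rintro S hS ⟨s, hs, hmem⟩ α
    obtain ⟨n, hn⟩ := hS s hs hmem α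
    exact ⟨n, fun m hm => ⟨s, hs, hn m hm⟩⟩

namespace Fan

variable {I : Type u}

/-- The nonisolated point. -/
def inf : Fan I := (none : Option (I × ℕ))

/-- The isolated points. -/
def pt (α : I) (n : ℕ) : Fan I := (some (α, n) : Option (I × ℕ))

lemma cases (x : Fan I) : x = inf ∨ ∃ α n, x = pt α n := by
  rcases x with _ | ⟨α, n⟩
  · exact Or.inl rfl
  · exact Or.inr ⟨α, n, rfl⟩

lemma pt_ne_inf (α : I) (n : ℕ) : pt α n ≠ inf := fun h => Option.some_ne_none _ h

lemma pt_inj {α β : I} {n m : ℕ} (h : pt α n = pt β m) : α = β ∧ n = m := by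
  have := Option.some.inj (show (some (α, n) : Option (I × ℕ)) = some (β, m) from h)
  exact Prod.mk.inj this

lemma isOpen_iff (U : Set (Fan I)) :
    IsOpen U ↔ (inf ∈ U → ∀ α : I, ∃ n : ℕ, ∀ m ≥ n, pt α m ∈ U) := Iff.rfl

lemma isOpen_of_notMem {U : Set (Fan I)} (h : inf ∉ U) : IsOpen U :=
  (isOpen_iff U).2 fun h' => absurd h' h

lemma isClosed_of_mem {U : Set (Fan I)} (h : inf ∈ U) : IsClosed U :=
  ⟨isOpen_of_notMem fun h' => h' h⟩

instance : T2Space (Fan I) := by
  refine ⟨fun x y hxy => ?_⟩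
  have key : ∀ (α : I) (n : ℕ) (y : Fan I), y ≠ pt α n →
      ∃ u v : Set (Fan I), IsOpen u ∧ IsOpen v ∧ pt α n ∈ u ∧ y ∈ v ∧ Disjoint u v := by
    intro α n y hy
    refine ⟨{pt α n}, {pt α n}ᶜ, isOpen_of_notMem fun h => pt_ne_inf _ _ h.symm, ?_, rfl, hy,
      disjoint_compl_right⟩
    refine (isOpen_iff _).2 fun _ β => ⟨n + 1, fun m hm h => ?_⟩
    have := (pt_inj h).2
    omega
  rcases cases x with rfl | ⟨α, n, rfl⟩
  · rcases cases y with rfl | ⟨α, n, rfl⟩
    · exact absurd rfl hxy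
    · obtain ⟨u, v, h1, h2, h3, h4, h5⟩ := key α n inf hxy
      exact ⟨v, u, h2, h1, h4, h3, h5.symm⟩
  · exact key α n y (Ne.symm hxy)

lemma finite_of_isCompact {A : Set (Fan I)} (hA : IsCompact A) (h : inf ∉ A) : A.Finite := by
  refine hA.finite ?_
  refine ⟨discreteTopology_iff_forall_isOpen.2 fun s => ?_⟩
  refine isOpen_induced_iff.2 ⟨Subtype.val '' s, ?_, ?_⟩
  · apply isOpen_of_notMem
    rintro ⟨x, -, hx⟩
    exact h (hx ▸ x.2)
  · exact preimage_image_eq _ Subtype.val_injective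

/-- The set of spines met by `A`. -/
def cols (A : Set (Fan I)) : Set I := {α | ∃ n, pt α n ∈ A}

lemma cols_finite {A : Set (Fan I)} (hA : IsCompact A) : (cols A).Finite := by
  classical
  choose h hh using fun α : cols A => α.2
  let D : Set (Fan I) := range fun α : cols A => pt α.1 (h α)
  have hDinf : inf ∉ D := by
    rintro ⟨α, hα⟩
    exact pt_ne_inf _ _ hα
  have hDcl : IsClosed D := by
    refine ⟨(isOpen_iff _).2 fun _ α => ?_⟩
    by_cases hα : α ∈ cols A
    · refine ⟨h ⟨α, hα⟩ + 1, ?_⟩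
      rintro m hm ⟨β, hβ⟩
      obtain ⟨h1, h2⟩ := pt_inj hβ
      have h3 : β = ⟨α, hα⟩ := Subtype.ext h1
      rw [h3] at h2
      omega
    · refine ⟨0, ?_⟩
      rintro m hm ⟨β, hβ⟩
      exact hα ((pt_inj hβ).1 ▸ β.2)
  have hDA : D ⊆ A := by
    rintro _ ⟨α, rfl⟩
    exact hh α
  have hDfin := finite_of_isCompact (hA.of_isClosed_subset hDcl hDA) hDinf
  have hinj : Function.Injective fun α : cols A => pt α.1 (h α) := by
    intro α β hαβ
    exact Subtype.ext (pt_inj hαβ).1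
  have : Finite (cols A) := by
    have : Finite D := hDfin
    exact Finite.of_injective (fun α : cols A => (⟨pt α.1 (h α), ⟨α, rfl⟩⟩ : D))
      fun α β hαβ => hinj (congrArg Subtype.val hαβ)
  exact this

lemma exists_clopen_between {A W : Set (Fan I)} (hA : IsCompact A) (hW : IsOpen W) (h : A ⊆ W) :
    ∃ V : Set (Fan I), IsOpen V ∧ IsClosed V ∧ A ⊆ V ∧ V ⊆ W := by
  by_cases hinf : inf ∈ W
  · exact ⟨W, hW, isClosed_of_mem hinf, h, Subset.rfl⟩
  · exact ⟨A, isOpen_of_notMem fun h' => hinf (h h'), hA.isClosed, Subset.rfl, h⟩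

instance : T3Space (HyperS (Fan I)) := by
  have hreg : RegularSpace (HyperS (Fan I)) := by
    refine (regularSpace_generateFrom rfl).2 ?_
    rintro _ ⟨r, U, hU, rfl⟩ S hS
    obtain ⟨V, hV1, hV2, hV3, hV4⟩ :=
      exists_clopen_between (isCompact_val S) (isOpen_iUnion hU) hS.1
    have hj : ∀ j, ∃ Vj : Set (Fan I), IsOpen Vj ∧ IsClosed Vj ∧ (S.1 ∩ Vj).Nonempty ∧
        Vj ⊆ U j := by
      intro j
      obtain ⟨x, hx1, hx2⟩ := hS.2 j
      obtain ⟨Vj, h1, h2, h3, h4⟩ :=
        exists_clopen_between isCompact_singleton (hU j) (singleton_subset_iff.2 hx2)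
      exact ⟨Vj, h1, h2, ⟨x, hx1, h3 rfl⟩, h4⟩
    choose Vj h1 h2 h3 h4 using hj
    let 𝒱 : Set (HyperS (Fan I)) := {T | T.1 ⊆ V} ∩ ⋂ j, {T | (T.1 ∩ Vj j).Nonempty}
    have hopen : IsOpen 𝒱 :=
      (isOpen_sub V hV1).inter (isOpen_iInter_of_finite fun j => isOpen_meet _ (h1 j))
    have hclosed : IsClosed 𝒱 :=
      (isClosed_sub V hV2).inter (isClosed_iInter fun j => isClosed_meet _ (h2 j))
    have hS𝒱 : S ∈ 𝒱 := ⟨hV3, mem_iInter.2 h3⟩
    have hsub : 𝒱 ⊆ bracket U := by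
      rintro T ⟨hT1, hT2⟩
      refine ⟨hT1.trans hV4, fun j => ?_⟩
      exact (mem_iInter.1 hT2 j).mono (inter_subset_inter_right _ (h4 j))
    refine Filter.disjoint_iff.2 ⟨𝒱ᶜ, ?_, 𝒱, hopen.mem_nhds hS𝒱, disjoint_compl_left⟩
    exact hclosed.isOpen_compl.mem_nhdsSet.2 (compl_subset_compl.2 hsub)
  have ht0 : T0Space (HyperS (Fan I)) := by
    refine t0Space_iff_inseparable _ |>.2 ?_
    have key : ∀ A B : HyperS (Fan I), Inseparable A B → A.1 ⊆ B.1 := by
      intro A B hAB x hx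
      by_contra hcon
      have h1 : IsOpen {T : HyperS (Fan I) | (T.1 ∩ (B.1)ᶜ).Nonempty} :=
        isOpen_meet _ B.2.2.1.isOpen_compl
      obtain ⟨y, hy1, hy2⟩ := (hAB.mem_open_iff h1).1 (⟨x, hx, hcon⟩ : (A.1 ∩ (B.1)ᶜ).Nonempty)
      exact hy2 hy1
    intro A B hAB
    exact Subtype.ext ((key A B hAB).antisymm (key B A hAB.symm))
  exact {}

/-- `A` meets every spine it meets already below height `m`, and if `∞ ∉ A` then all of `A` is
below height `m`. -/
def Good (m : ℕ) (A : Set (Fan I)) : Prop :=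
  (∀ α n, pt α n ∈ A → ∃ k < m, pt α k ∈ A) ∧ (inf ∉ A → ∀ α n, pt α n ∈ A → n < m)

/-- The members of the network. -/
def cls (m : ℕ) (A : HyperS (Fan I)) : Set (HyperS (Fan I)) :=
  {B | Good m B.1 ∧ (inf ∈ B.1 ↔ inf ∈ A.1) ∧ ∀ α, ∀ n < m, (pt α n ∈ B.1 ↔ pt α n ∈ A.1)}

lemma eventually_good {A : Set (Fan I)} (hA : IsCompact A) : ∀ᶠ m in atTop, Good m A := by
  have h1 : ∀ᶠ m in atTop, ∀ α ∈ cols A, ∃ k < m, pt α k ∈ A := by
    refine (eventually_all_finite (cols_finite hA)).2 fun α hα => ?_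
    obtain ⟨k, hk⟩ := hα
    filter_upwards [eventually_gt_atTop k] with m hm using ⟨k, hm, hk⟩
  have h2 : ∀ᶠ m in atTop, inf ∉ A → ∀ α n, pt α n ∈ A → n < m := by
    by_cases hinf : inf ∈ A
    · exact Eventually.of_forall fun m h => absurd hinf h
    · have h3 : ∀ᶠ m in atTop, ∀ x ∈ A, ∀ α n, x = pt α n → n < m := by
        refine (eventually_all_finite (finite_of_isCompact hA hinf)).2 fun x hx => ?_
        rcases cases x with rfl | ⟨α, n, rfl⟩
        · exact absurd hx hinf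
        · filter_upwards [eventually_gt_atTop n] with m hm β k hk
          rw [← (pt_inj hk).2]; exact hm
      filter_upwards [h3] with m hm _ α n hx using hm _ hx α n rfl
  filter_upwards [h1, h2] with m hm1 hm2
  exact ⟨fun α n hx => hm1 α ⟨n, hx⟩, hm2⟩

lemma eventually_cls_subset (A : HyperS (Fan I)) (U : Set (HyperS (Fan I))) (hU : IsOpen U)
    (hA : A ∈ U) : ∀ᶠ m in atTop, cls m A ⊆ U := by
  change TopologicalSpace.GenerateOpen _ U at hU
  induction hU with
  | basic W hW =>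
    obtain ⟨r, U, hU, rfl⟩ := hW
    have h1 : ∀ᶠ m in atTop, ∀ j, ∀ B ∈ cls m A, (B.1 ∩ U j).Nonempty := by
      refine eventually_all.2 fun j => ?_
      obtain ⟨x, hx1, hx2⟩ := hA.2 j
      rcases cases x with rfl | ⟨α, n, rfl⟩
      · exact Eventually.of_forall fun m B hB => ⟨inf, hB.2.1.2 hx1, hx2⟩
      · filter_upwards [eventually_gt_atTop n] with m hm B hB
        exact ⟨pt α n, (hB.2.2 α n hm).2 hx1, hx2⟩
    have h2 : ∀ᶠ m in atTop, inf ∈ A.1 → ∀ α ∈ cols A.1, ∀ n ≥ m, pt α n ∈ ⋃ i, U i := by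
      by_cases hinf : inf ∈ A.1
      · have h3 : ∀ᶠ m in atTop, ∀ α ∈ cols A.1, ∀ n ≥ m, pt α n ∈ ⋃ i, U i := by
          refine (eventually_all_finite (cols_finite (isCompact_val A))).2 fun α _ => ?_
          obtain ⟨n, hn⟩ := (isOpen_iff _).1 (isOpen_iUnion hU) (hA.1 hinf) α
          filter_upwards [eventually_ge_atTop n] with m hm k hk using hn k (hm.trans hk)
        filter_upwards [h3] with m hm _ using hm
      · exact Eventually.of_forall fun m h => absurd h hinf
    filter_upwards [h1, h2] with m hm1 hm2 B hB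
    refine ⟨fun x hx => ?_, fun j => hm1 j B hB⟩
    rcases cases x with rfl | ⟨α, n, rfl⟩
    · exact hA.1 (hB.2.1.1 hx)
    · by_cases hn : n < m
      · exact hA.1 ((hB.2.2 α n hn).1 hx)
      · have hinf : inf ∈ B.1 := by
          by_contra hcon
          exact hn (hB.1.2 hcon α n hx)
        obtain ⟨k, hk1, hk2⟩ := hB.1.1 α n hx
        exact hm2 (hB.2.1.1 hinf) α ⟨k, (hB.2.2 α k hk1).1 hk2⟩ n (not_lt.1 hn)
  | univ => exact Eventually.of_forall fun m => subset_univ _
  | inter s t _ _ ihs iht =>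
    filter_upwards [ihs hA.1, iht hA.2] with m h1 h2 using subset_inter h1 h2
  | sUnion S _ ih =>
    obtain ⟨s, hs, hAs⟩ := hA
    filter_upwards [ih s hs hAs] with m hm using hm.trans (subset_sUnion_of_mem hs)

/-- The locally finite families. -/
def Net (I : Type u) (m : ℕ) : Set (Set (HyperS (Fan I))) := range fun A => cls m A

lemma locallyFinite_net (m : ℕ) : LocallyFinite fun s : Net I m => (s : Set (HyperS (Fan I))) := by
  intro B
  let U : Set (Fan I) := {x | ∀ α n, x = pt α n → α ∈ cols B.1 ∨ m ≤ n}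
  have hU : IsOpen U := by
    refine (isOpen_iff _).2 fun _ α => ⟨m, fun k hk β n h => ?_⟩
    obtain ⟨-, rfl⟩ := pt_inj h
    exact Or.inr hk
  have hBU : B.1 ⊆ U := by
    rintro x hx α n rfl
    exact Or.inl ⟨n, hx⟩
  refine ⟨{T | T.1 ⊆ U}, (isOpen_sub U hU).mem_nhds hBU, ?_⟩
  -- the classes meeting this neighbourhood are determined by finitely many data
  have hfin := cols_finite (isCompact_val B)
  let F : Set (I × ℕ) := cols B.1 ×ˢ Iio m
  have hF : F.Finite := hfin.prod (finite_Iio m)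
  let code : Set (HyperS (Fan I)) → Prop × Set (I × ℕ) := fun s =>
    (∃ C ∈ s, inf ∈ C.1, {p | p ∈ F ∧ ∃ C ∈ s, pt p.1 p.2 ∈ C.1})
  have hcode : ∀ s ∈ Net I m, ∀ t ∈ Net I m, (s ∩ {T | T.1 ⊆ U}).Nonempty →
      (t ∩ {T | T.1 ⊆ U}).Nonempty → code s = code t → s = t := by
    rintro _ ⟨A, rfl⟩ _ ⟨A', rfl⟩ ⟨C, hC1, hC2⟩ ⟨C', hC1', hC2'⟩ hst
    obtain ⟨e1, e2⟩ := Prod.mk.inj hst
    have c1 : ∀ (D A : HyperS (Fan I)), D ∈ cls m A →
        ((∃ C ∈ cls m A, inf ∈ C.1) ↔ inf ∈ A.1) := by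
      intro D A hD
      constructor
      · rintro ⟨E, hE1, hE2⟩
        exact hE1.2.1.1 hE2
      · exact fun h => ⟨D, hD, hD.2.1.2 h⟩
    have c2 : ∀ (D A : HyperS (Fan I)), D ∈ cls m A → D.1 ⊆ U → ∀ α, ∀ n < m,
        ((α, n) ∈ ({p | p ∈ F ∧ ∃ C ∈ cls m A, pt p.1 p.2 ∈ C.1} : Set (I × ℕ)) ↔
          pt α n ∈ A.1) := by
      intro D A hD hDU α n hn
      constructor
      · rintro ⟨-, E, hE1, hE2⟩
        exact (hE1.2.2 α n hn).1 hE2
      · intro h
        have h1 : pt α n ∈ D.1 := (hD.2.2 α n hn).2 h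
        refine ⟨⟨?_, hn⟩, D, hD, h1⟩
        rcases hDU h1 α n rfl with h2 | h2
        · exact h2
        · omega
    have d1 : inf ∈ A.1 ↔ inf ∈ A'.1 := by
      rw [← c1 C A hC1, ← c1 C' A' hC1']
      exact iff_of_eq e1
    have d2 : ∀ α, ∀ n < m, (pt α n ∈ A.1 ↔ pt α n ∈ A'.1) := by
      intro α n hn
      rw [← c2 C A hC1 hC2 α n hn, ← c2 C' A' hC1' hC2' α n hn, e2]
    ext E
    simp only [cls, mem_ofPred_eq]
    refine and_congr_right fun _ => and_congr (by rw [d1]) ?_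
    exact forall_congr' fun α => forall_congr' fun n => forall_congr' fun hn => by rw [d2 α n hn]
  refine Set.Finite.of_finite_image (f := fun s : Net I m => code s.1) ?_ ?_
  · refine ((finite_univ (α := Prop)).prod hF.finite_subsets).subset ?_
    rintro _ ⟨s, -, rfl⟩
    exact ⟨trivial, fun p hp => hp.1⟩
  · intro s hs t ht hst
    exact Subtype.ext (hcode s.1 s.2 t.1 t.2 hs ht hst)

theorem isSigmaSpace : IsSigmaSpace (HyperS (Fan I)) := by
  refine ⟨inferInstance, ⋃ m, Net I m, ⟨Net I, rfl, locallyFinite_net⟩, ?_⟩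
  intro A U hU hA
  obtain ⟨m, hm1, hm2⟩ :=
    ((eventually_good (isCompact_val A)).and (eventually_cls_subset A U hU hA)).exists
  exact ⟨cls m A, mem_iUnion.2 ⟨m, A, rfl⟩, ⟨hm1, Iff.rfl, fun _ _ _ => Iff.rfl⟩, hm2⟩

/-- A sequence of infinite sets has an injective choice function. -/
lemma exists_injective_choice {S : ℕ → Set I} (hS : ∀ k, (S k).Infinite) :
    ∃ c : ℕ → I, Function.Injective c ∧ ∀ k, c k ∈ S k := by
  classical
  choose f hf1 hf2 using fun (k : ℕ) (F : Finset I) => (hS k).exists_notMem_finset F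
  let G : ℕ → Finset I := fun k => Nat.rec ∅ (fun k F => insert (f k F) F) k
  have hG : ∀ k, G (k + 1) = insert (f k (G k)) (G k) := fun k => rfl
  have hmono : Monotone G := monotone_nat_of_le_succ fun k => by
    rw [hG]; exact Finset.subset_insert _ _
  have hmem : ∀ k, f k (G k) ∈ G (k + 1) := fun k => by
    rw [hG]; exact Finset.mem_insert_self _ _
  have hne : ∀ k l, k < l → f k (G k) ≠ f l (G l) := by
    intro k l hkl h
    exact hf2 l (G l) (h ▸ hmono hkl (hmem k))
  refine ⟨fun k => f k (G k), ?_, fun k => hf1 k (G k)⟩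
  intro k l hkl
  rcases lt_trichotomy k l with h | h | h
  · exact absurd hkl (hne k l h)
  · exact h
  · exact absurd hkl.symm (hne l k h)

theorem not_isAlephSpace [Uncountable I] : ¬ IsAlephSpace (HyperS (Fan I)) := by
  classical
  rintro ⟨-, P, ⟨Q, rfl, hQ⟩, hk⟩
  -- only countably many members of `P` meet `{x}` for `x` close to `∞`
  have hloc : ∀ n, ∃ U : Set (Fan I), IsOpen U ∧ inf ∈ U ∧
      {s : Set (HyperS (Fan I)) | s ∈ Q n ∧ ∃ x ∈ U, single x ∈ s}.Finite := by
    intro n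
    obtain ⟨t, ht, hfin⟩ := hQ n (single inf)
    have h1 : single ⁻¹' t ∈ 𝓝 (inf : Fan I) := continuous_single.continuousAt.preimage_mem_nhds ht
    obtain ⟨U, hU1, hU2, hU3⟩ := mem_nhds_iff.1 h1
    refine ⟨U, hU2, hU3, (hfin.image Subtype.val).subset ?_⟩
    rintro s ⟨hs, x, hx, hxs⟩
    exact ⟨⟨s, hs⟩, ⟨single x, hxs, hU1 hx⟩, rfl⟩
  choose U hU1 hU2 hU3 using hloc
  let R : Set (Set (HyperS (Fan I))) := ⋃ n, {s | s ∈ Q n ∧ ∃ x ∈ U n, single x ∈ s}
  have hR : R.Countable := countable_iUnion fun n => (hU3 n).countable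
  -- the key property of `R`
  have key : ∀ (α : I) (W : Set (Fan I)), IsOpen W → inf ∈ W →
      ∃ s ∈ R, (∀ x, single x ∈ s → x ∈ W) ∧ ∃ n, single (pt α n) ∈ s := by
    intro α W hW hinf
    obtain ⟨n, hn⟩ := (isOpen_iff W).1 hW hinf α
    let K : Set (Fan I) := insert inf (range fun k => pt α (n + k))
    have hlim : Tendsto (fun k => pt α (n + k)) atTop (𝓝 inf) := by
      refine tendsto_nhds.2 fun V hV hVinf => ?_
      obtain ⟨k, hk⟩ := (isOpen_iff V).1 hV hVinf α
      filter_upwards [eventually_ge_atTop k] with l hl using hk _ (by omega)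
    have hK : IsCompact K := hlim.isCompact_insert_range
    have hKW : single '' K ⊆ {T : HyperS (Fan I) | T.1 ⊆ W} := by
      rintro _ ⟨x, hx, rfl⟩
      refine singleton_subset_iff.2 ?_
      rcases hx with rfl | ⟨k, rfl⟩
      · exact hinf
      · exact hn _ (by omega)
    obtain ⟨P', hP'1, hP'2, hP'3, hP'4⟩ :=
      hk _ _ (hK.image continuous_single) (isOpen_sub W hW) hKW
    -- one member of `P'` contains infinitely many points of `K`
    have h1 : ∃ s ∈ P', {k | single (pt α (n + k)) ∈ s}.Infinite := by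
      by_contra hcon
      push Not at hcon
      have h2 : (⋃ s ∈ P', {k | single (pt α (n + k)) ∈ s}).Finite :=
        hP'2.biUnion fun s hs => hcon s hs
      have h3 : (⋃ s ∈ P', {k | single (pt α (n + k)) ∈ s}) = univ := by
        refine eq_univ_of_forall fun k => ?_
        obtain ⟨s, hs1, hs2⟩ := hP'3 (mem_image_of_mem single (Or.inr ⟨k, rfl⟩ :
          pt α (n + k) ∈ K))
        exact mem_biUnion hs1 hs2
      rw [h3] at h2
      exact infinite_univ h2
    obtain ⟨s, hs, hinf'⟩ := h1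
    obtain ⟨i, hi⟩ := mem_iUnion.1 (hP'1 hs)
    refine ⟨s, mem_iUnion.2 ⟨i, hi, ?_⟩, ?_, ?_⟩
    · obtain ⟨l, hl⟩ := (isOpen_iff _).1 (hU1 i) (hU2 i) α
      obtain ⟨k, hk1, hk2⟩ := hinf'.exists_gt l
      exact ⟨pt α (n + k), hl _ (by omega), hk1⟩
    · intro x hx
      exact singleton_subset_iff.1 (hP'4 (mem_sUnion.2 ⟨s, hs, hx⟩))
    · obtain ⟨k, hk1⟩ := hinf'.nonempty
      exact ⟨n + k, hk1⟩
  have hRne : R.Nonempty := by
    obtain ⟨s, hs, -⟩ := key (Classical.arbitrary I) univ isOpen_univ trivial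
    exact ⟨s, hs⟩
  obtain ⟨q, hq⟩ := hR.exists_eq_range hRne
  -- the spines met by `q k`
  let S : ℕ → Set I := fun k => {α | ∃ n, single (pt α n) ∈ q k}
  let S' : ℕ → Set I := fun k => if (S k).Infinite then S k else univ
  have hS' : ∀ k, (S' k).Infinite := by
    intro k
    by_cases h : (S k).Infinite
    · simp only [S', if_pos h]; exact h
    · simp only [S', if_neg h]; exact infinite_univ
  obtain ⟨c, hc1, hc2⟩ := exists_injective_choice hS'
  have hg : ∃ g : I → ℕ, ∀ k, (S k).Infinite → ∃ n < g (c k), single (pt (c k) n) ∈ q k := by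
    have h1 : ∀ k, ∃ N, (S k).Infinite → ∃ n < N, single (pt (c k) n) ∈ q k := by
      intro k
      by_cases h : (S k).Infinite
      · have h2 := hc2 k
        simp only [S', if_pos h] at h2
        obtain ⟨n, hn⟩ := h2
        exact ⟨n + 1, fun _ => ⟨n, Nat.lt_succ_self n, hn⟩⟩
      · exact ⟨0, fun h' => absurd h' h⟩
    choose N hN using h1
    refine ⟨fun α => if h : ∃ k, c k = α then N h.choose else 0, fun k hk => ?_⟩
    have h : ∃ l, c l = c k := ⟨k, rfl⟩
    have h2 : h.choose = k := hc1 h.choose_spec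
    simp only [dif_pos h, h2]
    exact hN k hk
  obtain ⟨g, hg⟩ := hg
  have hcount : (⋃ k, {α | α ∈ S k ∧ (S k).Finite}).Countable := by
    refine countable_iUnion fun k => ?_
    by_cases h : (S k).Finite
    · exact h.countable.mono fun α hα => hα.1
    · convert countable_empty
      ext α
      simp [h]
  obtain ⟨α, hα⟩ : ∃ α, α ∉ ⋃ k, {α | α ∈ S k ∧ (S k).Finite} := by
    by_contra hcon
    push Not at hcon
    exact not_countable_univ (hcount.mono fun α _ => hcon α)
  let W : Set (Fan I) := {x | ∀ β n, x = pt β n → g β ≤ n}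
  have hW : IsOpen W := by
    refine (isOpen_iff W).2 fun _ β => ⟨g β, fun m hm γ n h => ?_⟩
    obtain ⟨rfl, rfl⟩ := pt_inj h
    exact hm
  obtain ⟨s, hs, hsW, n, hn⟩ := key α W hW fun β n h => absurd h.symm (pt_ne_inf β n)
  rw [hq] at hs
  obtain ⟨k, rfl⟩ := hs
  by_cases h : (S k).Infinite
  · obtain ⟨m, hm1, hm2⟩ := hg k h
    have := hsW _ hm2 (c k) m rfl
    omega
  · exact hα (mem_iUnion.2 ⟨k, ⟨n, hn⟩, not_infinite.1 h⟩)

end Fan

/-- There is a Hausdorff space `X` for which `𝒮(X)` is a `σ`-space but not an `ℵ`-space. -/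
theorem result : ∃ (X : Type) (_ : TopologicalSpace X), T2Space X ∧
    IsSigmaSpace (HyperS X) ∧ ¬ IsAlephSpace (HyperS X) := by
  have : Uncountable (Set ℕ) := by
    rw [← Cardinal.aleph0_lt_mk_iff]
    simpa using Cardinal.cantor Cardinal.aleph0
  exact ⟨Fan (Set ℕ), inferInstance, inferInstance, Fan.isSigmaSpace, Fan.not_isAlephSpace⟩

end Pool.Agent.Results.MP_81fb9f_gt.SequentialFan
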